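import Pool.Agent.H96.AL.Targets2

/-!
Board al (MP_c9ef16_gt), module CE: closed sets invariant under the gradient curves of squared
distances are extremal.
-/

open Topology Set Filter Real

namespace Pool.Agent.H69.AL

open Pool.Agent.H96.AL

/-- `sinh x / x`, with value `1` at `0`. -/
noncomputable def sh (x : ℝ) : ℝ := dslope sinh 0 x

theorem sh_continuous : Continuous sh := by
  rw [continuous_iff_continuousAt]
  intro x
  by_cases hx : x = 0
  · subst hx
    exact continuousAt_dslope_same.2 Real.differentiable_sinh.differentiableAt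
  · exact (continuousAt_dslope_of_ne hx).2 Real.continuous_sinh.continuousAt

theorem sh_of_ne {x : ℝ} (hx : x ≠ 0) : sh x = sinh x / x := by
  unfold sh
  rw [dslope_of_ne _ hx, slope_def_field]
  simp

theorem sh_zero : sh 0 = 1 := by
  unfold sh
  rw [dslope_same]
  simp

theorem sh_mul (x : ℝ) : sh x * x = sinh x := by
  by_cases hx : x = 0
  · subst hx; simp
  · rw [sh_of_ne hx]; field_simp

theorem one_le_sh {x : ℝ} (hx : 0 ≤ x) : 1 ≤ sh x := by
  rcases hx.eq_or_lt with h | h
  · rw [← h, sh_zero]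
  · rw [sh_of_ne h.ne', le_div_iff₀ h, one_mul]
    exact self_le_sinh_iff.2 hx

theorem sinh_le_mul_cosh {x : ℝ} (hx : 0 ≤ x) : sinh x ≤ x * cosh x := by
  have hmono : MonotoneOn (fun y : ℝ => y * cosh y - sinh y) (Ici 0) := by
    refine monotoneOn_of_deriv_nonneg (convex_Ici 0) (by fun_prop) ?_ ?_
    · exact (by fun_prop : Differentiable ℝ (fun y : ℝ => y * cosh y - sinh y)).differentiableOn
    · intro y hy
      rw [interior_Ici] at hy
      have h : HasDerivAt (fun y : ℝ => y * cosh y - sinh y)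
          (1 * cosh y + y * sinh y - cosh y) y :=
        ((hasDerivAt_id y).mul (Real.hasDerivAt_cosh y)).sub (Real.hasDerivAt_sinh y)
      rw [h.deriv]
      have h2 : 0 ≤ y * sinh y := mul_nonneg (le_of_lt hy) (sinh_nonneg_iff.2 (le_of_lt hy))
      linarith
  have := hmono (mem_Ici.2 le_rfl) (mem_Ici.2 hx) hx
  simp at this
  exact this

theorem sh_le_cosh {x : ℝ} (hx : 0 ≤ x) : sh x ≤ cosh x := by
  rcases hx.eq_or_lt with h | h
  · rw [← h, sh_zero, cosh_zero]
  · rw [sh_of_ne h.ne', div_le_iff₀ h]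
    have := sinh_le_mul_cosh hx
    linarith

/-- tangent line inequality of the convex function `cosh (√(2x))` -/
theorem tangent {a b : ℝ} (ha : 0 ≤ a) (hb : 0 ≤ b) :
    sh b * ((a ^ 2 - b ^ 2) / 2) ≤ cosh a - cosh b := by
  rcases le_total b a with h | h
  · have hx : 0 ≤ a - b := by linarith
    have e1 : cosh a = cosh b * cosh (a - b) + sinh b * sinh (a - b) := by
      rw [← cosh_add]; congr 1; ring
    have h1 : (a - b) ^ 2 / 2 ≤ cosh (a - b) - 1 := by
      have e : cosh (a - b) = 1 + 2 * sinh ((a - b) / 2) ^ 2 := by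
        have := Real.cosh_two_mul ((a - b) / 2)
        rw [Real.cosh_sq] at this
        rw [show 2 * ((a - b) / 2) = a - b by ring] at this
        rw [this]; ring
      have h : (a - b) / 2 ≤ sinh ((a - b) / 2) := self_le_sinh_iff.2 (by linarith)
      have h' : ((a - b) / 2) ^ 2 ≤ sinh ((a - b) / 2) ^ 2 :=
        pow_le_pow_left₀ (by linarith) h 2
      rw [e]
      nlinarith [h']
    have h2 : a - b ≤ sinh (a - b) := self_le_sinh_iff.2 hx
    have h3 : sh b ≤ cosh b := sh_le_cosh hb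
    have h4 : sh b * b = sinh b := sh_mul b
    have h5 : 0 ≤ sinh b := sinh_nonneg_iff.2 hb
    have h6 : 0 ≤ cosh b := (cosh_pos b).le
    have k1 := mul_le_mul_of_nonneg_left h1 h6
    have k2 := mul_le_mul_of_nonneg_left h2 h5
    have k3 : sh b * ((a - b) ^ 2 / 2) ≤ cosh b * ((a - b) ^ 2 / 2) :=
      mul_le_mul_of_nonneg_right h3 (by positivity)
    have e2 : sh b * ((a ^ 2 - b ^ 2) / 2) = sh b * ((a - b) ^ 2 / 2) + sinh b * (a - b) := by
      rw [← h4]; ring
    rw [e2, e1]
    linarith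
  · rcases hb.eq_or_lt with hb0 | hb0
    · have : a = 0 := by linarith
      rw [this, ← hb0]; simp
    · obtain ⟨u, hu⟩ : ∃ u, u = (a + b) / 2 := ⟨_, rfl⟩
      obtain ⟨v, hv⟩ : ∃ v, v = (b - a) / 2 := ⟨_, rfl⟩
      have hu0 : 0 ≤ u := by rw [hu]; linarith
      have hv0 : 0 ≤ v := by rw [hv]; linarith
      have eb : b = u + v := by rw [hu, hv]; ring
      have ea : a = u - v := by rw [hu, hv]; ring
      have h1 := sinh_le_mul_cosh hu0
      have h2 := sinh_le_mul_cosh hv0
      have h3 : 0 ≤ sinh u := sinh_nonneg_iff.2 hu0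
      have h4 : 0 ≤ sinh v := sinh_nonneg_iff.2 hv0
      have key : b * (sinh u * sinh v) ≤ u * v * sinh b := by
        have k1 : (u * sinh u) * sinh v ≤ (u * sinh u) * (v * cosh v) :=
          mul_le_mul_of_nonneg_left h2 (mul_nonneg hu0 h3)
        have k2 : (v * sinh v) * sinh u ≤ (v * sinh v) * (u * cosh u) :=
          mul_le_mul_of_nonneg_left h1 (mul_nonneg hv0 h4)
        have e1 : b * (sinh u * sinh v) = (u * sinh u) * sinh v + (v * sinh v) * sinh u := by
          rw [eb]; ring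
        have e2 : u * v * sinh b = (u * sinh u) * (v * cosh v) + (v * sinh v) * (u * cosh u) := by
          rw [eb, sinh_add]; ring
        rw [e1, e2]
        linarith
      have e3 : cosh a - cosh b = -(2 * (sinh u * sinh v)) := by
        rw [ea, eb, cosh_add, cosh_sub]; ring
      have e4 : sh b * ((a ^ 2 - b ^ 2) / 2) = -(2 * (u * v * sinh b / b)) := by
        rw [sh_of_ne hb0.ne', ea, hu, hv]
        field_simp
        ring
      rw [e3, e4]
      have k5 : sinh u * sinh v ≤ u * v * sinh b / b := by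
        rw [le_div_iff₀ hb0]; linarith
      linarith

/-- the derivative of the squared distance from `w` at `z` in the direction of `q` -/
noncomputable def vf {X : Type} [MetricSpace X] (w q z : X) : ℝ :=
  -((sh (dist w z))⁻¹ * ((sh (dist z q))⁻¹ *
    (cosh (dist w q) - cosh (dist z q) * cosh (dist w z))))

theorem vf_continuous {X : Type} [MetricSpace X] (w q : X) : Continuous (vf w q) := by
  have h1 : Continuous fun z : X => sh (dist w z) := sh_continuous.comp (by fun_prop)
  have h2 : Continuous fun z : X => sh (dist z q) := sh_continuous.comp (by fun_prop)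
  have h1' : ∀ z : X, sh (dist w z) ≠ 0 := fun z =>
    (lt_of_lt_of_le one_pos (one_le_sh dist_nonneg)).ne'
  have h2' : ∀ z : X, sh (dist z q) ≠ 0 := fun z =>
    (lt_of_lt_of_le one_pos (one_le_sh dist_nonneg)).ne'
  unfold vf
  exact ((h1.inv₀ h1').mul ((h2.inv₀ h2').mul (by fun_prop))).neg

theorem vf_dge {X : Type} [MetricSpace X] (hcb : CB X) (w q z : X) :
    DGe (fun z => dist w z ^ 2 / 2) z q (-vf w q z) := by
  intro η hη ε hε
  obtain ⟨h0, h1, hgeo⟩ := hη
  obtain ⟨l, hl⟩ : ∃ l, l = dist z q := ⟨_, rfl⟩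
  obtain ⟨ρ, hρ⟩ : ∃ ρ, ρ = dist w z := ⟨_, rfl⟩
  have hρ0 : 0 ≤ ρ := by rw [hρ]; exact dist_nonneg
  have hshρ : 1 ≤ sh ρ := one_le_sh hρ0
  rw [← hl] at h1 hgeo ⊢
  rcases (dist_nonneg (x := z) (y := q)).eq_or_lt with h | h
  · have hzq : z = q := dist_eq_zero.1 h.symm
    subst hzq
    rw [dist_self] at hl
    subst hl
    have hv : vf w z z = 0 := by
      unfold vf
      rw [dist_self]
      simp
    rw [hv]
    filter_upwards [self_mem_nhdsWithin] with s hs
    have hs0 : (0 : ℝ) < s := hs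
    simp only [mul_zero, h0]
    have : 0 < s * ε := mul_pos hs0 hε
    linarith
  · rw [← hl] at h
    have hshl : sh l = sinh l / l := sh_of_ne h.ne'
    have hsl : 0 < sinh l := sinh_pos_iff.2 h
    -- the comparison function
    obtain ⟨c, hc⟩ : ∃ c, c = (sh l)⁻¹ * (cosh (dist w q) - cosh l * cosh ρ) := ⟨_, rfl⟩
    have hvf : -vf w q z = (sh ρ)⁻¹ * c := by
      unfold vf
      rw [← hl, ← hρ, hc, neg_neg]
    rw [hvf]
    obtain ⟨F, hF⟩ : ∃ F : ℝ → ℝ, F = fun s =>
        (sinh (l - s * l) * cosh ρ + sinh (s * l) * cosh (dist w q)) / sinh l := ⟨_, rfl⟩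
    have hF0 : F 0 = cosh ρ := by
      rw [hF]; simp only [zero_mul, sub_zero, sinh_zero, add_zero]
      field_simp
    have hF' : HasDerivAt F c 0 := by
      have d1 : HasDerivAt (fun s : ℝ => l - s * l) (-l) 0 := by
        simpa using ((hasDerivAt_id (0 : ℝ)).mul_const l).const_sub l
      have d2 : HasDerivAt (fun s : ℝ => s * l) l 0 := by
        simpa using (hasDerivAt_id (0 : ℝ)).mul_const l
      have d3 := (d1.sinh.mul_const (cosh ρ)).add (d2.sinh.mul_const (cosh (dist w q)))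
      have d4 := d3.div_const (sinh l)
      rw [hF]
      refine d4.congr_deriv ?_
      rw [hc, hshl]
      simp only [zero_mul, sub_zero, cosh_zero]
      field_simp
      ring
    have hsm : ∀ᶠ s in 𝓝[>] (0 : ℝ), F 0 + s * (c - ε / 2) ≤ F s := by
      have hs := (hasDerivAt_iff_tendsto_slope.1 hF').mono_left
        (nhdsWithin_mono (0 : ℝ) (fun x (hx : x ∈ Ioi (0 : ℝ)) => (ne_of_gt hx : x ≠ 0)))
      have he := hs.eventually (lt_mem_nhds (show c - ε / 2 < c by linarith))
      filter_upwards [he, self_mem_nhdsWithin] with s hs1 hs2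
      have hs0 : (0 : ℝ) < s := hs2
      rw [slope_def_field, sub_zero, lt_div_iff₀ hs0] at hs1
      linarith
    -- the factor `sh`
    have hη0 : Tendsto (fun s : ℝ => dist w (η (s * l))) (𝓝[>] 0) (𝓝 ρ) := by
      have hle : ∀ᶠ s in 𝓝[>] (0 : ℝ), |dist w (η (s * l)) - ρ| ≤ s * l := by
        have h1' : ∀ᶠ s in 𝓝[>] (0 : ℝ), s < 1 :=
          (nhdsWithin_le_nhds) (Iio_mem_nhds one_pos)
        filter_upwards [h1', self_mem_nhdsWithin] with s hs1 hs2
        have hs0 : (0 : ℝ) < s := hs2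
        have hd : dist z (η (s * l)) = s * l := by
          have := hgeo 0 ⟨le_rfl, h.le⟩ (s * l) ⟨by positivity, by nlinarith⟩
          rw [h0, zero_sub, abs_neg, abs_of_nonneg (by positivity)] at this
          exact this
        have := abs_dist_sub_le (η (s * l)) z w
        rw [dist_comm (η (s * l)) w, dist_comm z w, dist_comm (η (s * l)) z, hd, ← hρ] at this
        exact this
      have hlim : Tendsto (fun s : ℝ => s * l) (𝓝[>] 0) (𝓝 0) := by
        have : Tendsto (fun s : ℝ => s * l) (𝓝 0) (𝓝 (0 * l)) :=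
          (continuous_id.mul continuous_const).tendsto 0
        rw [zero_mul] at this
        exact this.mono_left nhdsWithin_le_nhds
      rw [tendsto_iff_norm_sub_tendsto_zero]
      refine squeeze_zero' (Eventually.of_forall fun s => norm_nonneg _) ?_ hlim
      filter_upwards [hle] with s hs
      rw [Real.norm_eq_abs]
      exact hs
    have hsh : Tendsto (fun s : ℝ => (sh (dist w (η (s * l))))⁻¹ * (c - ε / 2)) (𝓝[>] 0)
        (𝓝 ((sh ρ)⁻¹ * (c - ε / 2))) := by
      refine Tendsto.mul_const _ ?_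
      exact ((sh_continuous.tendsto ρ).comp hη0).inv₀ (by linarith)
    have hsh2 : ∀ᶠ s in 𝓝[>] (0 : ℝ),
        (sh ρ)⁻¹ * (c - ε / 2) - ε / 2 < (sh (dist w (η (s * l))))⁻¹ * (c - ε / 2) :=
      hsh.eventually (lt_mem_nhds (by linarith))
    have h1' : ∀ᶠ s in 𝓝[>] (0 : ℝ), s < 1 := (nhdsWithin_le_nhds) (Iio_mem_nhds one_pos)
    filter_upwards [h1', self_mem_nhdsWithin, hsm, hsh2] with s hs1 hs2 hs3 hs4
    have hs0 : (0 : ℝ) < s := hs2
    have hsl1 : 0 ≤ s * l := by positivity
    have hsl2 : s * l ≤ l := by nlinarith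
    have hd : dist z (η (s * l)) = s * l := by
      have := hgeo 0 ⟨le_rfl, h.le⟩ (s * l) ⟨hsl1, hsl2⟩
      rw [h0, zero_sub, abs_neg, abs_of_nonneg hsl1] at this
      exact this
    have hd2 : dist (η (s * l)) q = l - s * l := by
      have := hgeo (s * l) ⟨hsl1, hsl2⟩ l ⟨h.le, le_rfl⟩
      rw [h1, abs_sub_comm, abs_of_nonneg (by linarith)] at this
      exact this
    have hb : H96.AL.Btw z (η (s * l)) q := by
      unfold H96.AL.Btw
      rw [hd, hd2, ← hl]; ring
    have hcb' := hcb w z q (η (s * l)) hb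
    rw [hd, hd2, ← hl, ← hρ] at hcb'
    have hFs : F s ≤ cosh (dist w (η (s * l))) := by
      rw [hF]
      simp only
      rw [div_le_iff₀ hsl]
      linarith
    obtain ⟨ρs, hρs⟩ : ∃ ρs, ρs = dist w (η (s * l)) := ⟨_, rfl⟩
    have hρs0 : 0 ≤ ρs := by rw [hρs]; exact dist_nonneg
    rw [← hρs] at hs4 hFs ⊢
    rw [← hρ]
    have ht := tangent hρ0 hρs0
    have hshs : 1 ≤ sh ρs := one_le_sh hρs0
    have hpos : 0 < sh ρs := by linarith
    have k1 : s * (c - ε / 2) ≤ sh ρs * ((ρs ^ 2 - ρ ^ 2) / 2) := by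
      rw [hF0] at hs3
      have : sh ρs * ((ρs ^ 2 - ρ ^ 2) / 2) = -(sh ρs * ((ρ ^ 2 - ρs ^ 2) / 2)) := by ring
      rw [this]
      linarith
    have k2 : s * ((sh ρs)⁻¹ * (c - ε / 2)) ≤ (ρs ^ 2 - ρ ^ 2) / 2 := by
      have := mul_le_mul_of_nonneg_left k1 (inv_nonneg.2 hpos.le)
      rw [inv_mul_cancel_left₀ hpos.ne'] at this
      calc s * ((sh ρs)⁻¹ * (c - ε / 2)) = (sh ρs)⁻¹ * (s * (c - ε / 2)) := by ring
        _ ≤ _ := this
    have k3 : (sh ρ)⁻¹ ≤ 1 := inv_le_one_of_one_le₀ hshρ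
    have k4 : (sh ρ)⁻¹ * (ε / 2) ≤ ε / 2 := by
      have := mul_le_mul_of_nonneg_right k3 (show (0 : ℝ) ≤ ε / 2 by linarith)
      linarith
    have k5 : (sh ρ)⁻¹ * c - ε ≤ (sh ρs)⁻¹ * (c - ε / 2) := by
      have e : (sh ρ)⁻¹ * (c - ε / 2) = (sh ρ)⁻¹ * c - (sh ρ)⁻¹ * (ε / 2) := by ring
      rw [e] at hs4
      linarith
    have k6 := mul_le_mul_of_nonneg_left k5 hs0.le
    linarith

theorem ce (hFL : T_FL) (hSD : T_SD) : T_CE := by
  intro X _ D hX C hC hinv
  refine ⟨hC, ?_⟩
  intro q hq p hp hmin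
  by_contra hcrit
  unfold Critical at hcrit
  push Not at hcrit
  obtain ⟨ε, hε, hfreq⟩ := hcrit
  obtain ⟨l, hl⟩ : ∃ l, l = dist p q := ⟨_, rfl⟩
  have hl0 : 0 < l := by
    rw [hl]
    exact dist_pos.2 fun h => hq (h ▸ hp)
  -- choice of `w`
  have hder : HasDerivAt (fun e : ℝ => cosh (l + ε * e) - cosh l * cosh e) (sinh l * ε) 0 := by
    have d1 : HasDerivAt (fun e : ℝ => l + ε * e) ε 0 := by
      simpa using ((hasDerivAt_id (0 : ℝ)).const_mul ε).const_add l
    have d2 := d1.cosh.sub ((Real.hasDerivAt_cosh (0 : ℝ)).const_mul (cosh l))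
    refine d2.congr_deriv ?_
    simp
  have hpos : ∀ᶠ e in 𝓝[>] (0 : ℝ), cosh l * cosh e < cosh (l + ε * e) := by
    have hs := (hasDerivAt_iff_tendsto_slope.1 hder).mono_left
      (nhdsWithin_mono (0 : ℝ) (fun x (hx : x ∈ Ioi (0 : ℝ)) => (ne_of_gt hx : x ≠ 0)))
    have h0 : 0 < sinh l * ε := mul_pos (sinh_pos_iff.2 hl0) hε
    filter_upwards [hs.eventually (lt_mem_nhds h0), self_mem_nhdsWithin] with e he1 he2
    have he0 : (0 : ℝ) < e := he2
    rw [slope_def_field, sub_zero] at he1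
    have := (div_pos_iff_of_pos_right he0).1 he1
    simp at this
    exact this
  rw [eventually_nhdsWithin_iff, Metric.eventually_nhds_iff] at hpos
  obtain ⟨δ, hδ, hpos⟩ := hpos
  obtain ⟨w, hw1, hw2⟩ : ∃ w : X, dist w p < δ ∧ dist q p + ε * dist w p < dist q w := by
    have := hfreq.and_eventually (Metric.ball_mem_nhds p hδ)
    obtain ⟨w, h1, h2⟩ := this.exists
    exact ⟨w, h2, h1⟩
  have he0 : 0 < dist w p := by
    rcases (dist_nonneg (x := w) (y := p)).eq_or_lt with h | h
    · exfalso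
      have hwp : w = p := dist_eq_zero.1 h.symm
      rw [hwp, dist_self] at hw2
      linarith
    · exact h
  have hneg : vf w q p < 0 := by
    have h1 := hpos (y := dist w p) (by rw [Real.dist_eq, sub_zero, abs_of_pos he0]; exact hw1) he0
    have h2 : cosh (l + ε * dist w p) < cosh (dist w q) := by
      rw [Real.cosh_lt_cosh, abs_of_pos (by positivity), abs_of_nonneg dist_nonneg, hl,
        dist_comm p q, dist_comm w q]
      exact hw2
    have h3 : 0 < cosh (dist w q) - cosh (dist p q) * cosh (dist w p) := by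
      rw [← hl]; linarith
    have h4 : 0 < (sh (dist w p))⁻¹ :=
      inv_pos.2 (lt_of_lt_of_le one_pos (one_le_sh dist_nonneg))
    have h5 : 0 < (sh (dist p q))⁻¹ :=
      inv_pos.2 (lt_of_lt_of_le one_pos (one_le_sh dist_nonneg))
    have := mul_pos h4 (mul_pos h5 h3)
    unfold vf
    linarith
  -- the gradient curve
  have hD : 0 ≤ D := le_trans zero_le_one hX.one_le
  obtain ⟨hsc, hlip⟩ := hSD X D hX w
  obtain ⟨α, hα0, hα⟩ := hFL X D hX (fun z => dist w z ^ 2 / 2) D (cosh D) hD (cosh_pos D).le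
    hlip hsc p
  have hmem : ∀ t : ℝ, 0 ≤ t → α t ∈ C := hinv w α hα (by rw [hα0]; exact hp)
  have hcont : ContinuousOn α (Ici 0) := by
    have : LipschitzOnWith (Real.toNNReal D) α (Ici 0) := by
      refine LipschitzOnWith.of_dist_le_mul fun s hs t ht => ?_
      rw [Real.coe_toNNReal D hD, Real.dist_eq]
      exact hα.lip s t hs ht
    exact this.continuousOn
  have hcv : ContinuousOn (fun r => vf w q (α r)) (Ici 0) :=
    (vf_continuous w q).comp_continuousOn hcont
  -- small times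
  have hev1 : ∀ᶠ r in 𝓝[≥] (0 : ℝ), vf w q (α r) < vf w q p / 2 := by
    have h1 := hcv 0 (mem_Ici.2 le_rfl)
    have h2 : Tendsto (fun r => vf w q (α r)) (𝓝[≥] (0 : ℝ)) (𝓝 (vf w q p)) := by
      have := h1.tendsto
      rw [hα0] at this
      exact this
    exact h2.eventually (gt_mem_nhds (by linarith))
  have hev2 : ∀ᶠ r in 𝓝[≥] (0 : ℝ), dist q p ≤ dist q (α r) := by
    have h1 : Tendsto α (𝓝[≥] (0 : ℝ)) (𝓝[C] p) := by
      refine tendsto_nhdsWithin_iff.2 ⟨?_, ?_⟩
      · have := (hcont 0 (mem_Ici.2 le_rfl)).tendsto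
        rw [hα0] at this
        exact this
      · filter_upwards [self_mem_nhdsWithin] with r hr
        exact hmem r hr
    exact h1.eventually hmin
  have hev := hev1.and hev2
  rw [eventually_nhdsWithin_iff, Metric.eventually_nhds_iff] at hev
  obtain ⟨δ', hδ', hev⟩ := hev
  have ht0 : 0 < δ' / 2 := by linarith
  have hr : ∀ r ∈ Icc (0 : ℝ) (δ' / 2), vf w q (α r) < vf w q p / 2 ∧
      dist q p ≤ dist q (α r) := by
    intro r hr
    exact hev (y := r) (by rw [Real.dist_eq, sub_zero, abs_of_nonneg hr.1]; linarith [hr.2]) hr.1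
  have hevi := hα.evi q (vf w q) (vf_continuous w q) (fun z => vf_dge hX.cb w q z) 0 (δ' / 2)
    le_rfl ht0.le
  have hint : ∫ r in (0 : ℝ)..(δ' / 2), vf w q (α r) ≤
      ∫ r in (0 : ℝ)..(δ' / 2), vf w q p / 2 := by
    refine intervalIntegral.integral_mono_on ht0.le ?_ ?_ ?_
    · refine ContinuousOn.intervalIntegrable ?_
      rw [uIcc_of_le ht0.le]
      exact hcv.mono Icc_subset_Ici_self
    · exact intervalIntegrable_const
    · intro r hr'
      exact (hr r hr').1.le
  rw [intervalIntegral.integral_const, sub_zero, smul_eq_mul] at hint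
  have h1 : dist q p ≤ dist q (α (δ' / 2)) := (hr (δ' / 2) ⟨ht0.le, le_rfl⟩).2
  rw [hα0, dist_comm p q, dist_comm (α (δ' / 2)) q] at hevi
  have h2 : dist q p ^ 2 ≤ dist q (α (δ' / 2)) ^ 2 := pow_le_pow_left₀ dist_nonneg h1 2
  have h3 : δ' / 2 * (vf w q p / 2) < 0 := mul_neg_of_pos_of_neg ht0 (by linarith)
  linarith

end Pool.Agent.H69.AL
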