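import Pool.Agent.H96.AL.Targets2

/-!
Board al (MP_c9ef16_gt), module GA: algebra of good functions.
-/

open Topology Set Filter Real

namespace Pool.Agent.H69.AL

open Pool.Agent.H96.AL

theorem ga : T_GA := by
  intro X _ f g C C' c hC hC' hc hf hg
  refine ⟨?_, ?_, ?_, ?_⟩
  · intro E hE z p hp
    have h1 := hf E hE z p hp
    have h2 := hg E hE z p hp
    simp only
    nlinarith [h1, h2]
  · intro E hE z p hp
    have h1 := hf E hE z p hp
    have h2 := hg E hE z p hp
    have hd : 0 ≤ dist z p ^ 2 := by positivity
    have h3 : C * dist z p ^ 2 ≤ max C C' * dist z p ^ 2 :=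
      mul_le_mul_of_nonneg_right (le_max_left _ _) hd
    have h4 : C' * dist z p ^ 2 ≤ max C C' * dist z p ^ 2 :=
      mul_le_mul_of_nonneg_right (le_max_right _ _) hd
    simp only
    refine le_min ?_ ?_
    · have := min_le_left (f z) (g z)
      linarith
    · have := min_le_right (f z) (g z)
      linarith
  · intro E hE z p hp
    have h1 := hf E hE z p hp
    simp only
    have := mul_le_mul_of_nonneg_left h1 hc
    nlinarith [this]
  · intro E hE z p hp
    have hd : 0 ≤ C * dist z p ^ 2 := by positivity
    simp only
    linarith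

end Pool.Agent.H69.AL
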