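import Pool.Agent.H96.AL.Targets2

/-!
Board al (MP_c9ef16_gt), module UN: unions and intersections of extremal subsets, hulls.
-/

open Topology Set Filter Real

namespace Pool.Agent.H69.AL

open Pool.Agent.H96.AL

theorem un (hCE : T_CE) (hIN : T_IN) (hGD : T_GD) (hSD : T_SD) : T_UN := by
  intro X _ D hX
  have hD : 0 ≤ D := le_trans zero_le_one hX.one_le
  have hinv : ∀ (a : X) (α : ℝ → X), IsFlow D (fun z => dist a z ^ 2 / 2) α →
      ∀ E : Set X, Extremal E → α 0 ∈ E → ∀ t : ℝ, 0 ≤ t → α t ∈ E := by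
    intro a α hα E hE h0 t ht
    obtain ⟨hsc, hlip⟩ := hSD X D hX a
    have hgood := (hGD X D hX).1 a
    exact hIN X D hX (fun z => dist a z ^ 2 / 2) D (cosh D) (cosh D ^ 2) D hD
      (cosh_pos D).le (by positivity) hlip hsc hgood α hα E hE h0 t ht
  have hunion : ∀ E E' : Set X, Extremal E → Extremal E' → Extremal (E ∪ E') := by
    intro E E' hE hE'
    refine hCE X D hX (E ∪ E') (hE.1.union hE'.1) ?_
    intro a α hα h0 t ht
    rcases h0 with h0 | h0
    · exact Or.inl (hinv a α hα E hE h0 t ht)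
    · exact Or.inr (hinv a α hα E' hE' h0 t ht)
  have hinter : ∀ S : Set (Set X), (∀ E ∈ S, Extremal E) → Extremal (⋂₀ S) := by
    intro S hS
    refine hCE X D hX (⋂₀ S) (isClosed_sInter fun E hE => (hS E hE).1) ?_
    intro a α hα h0 t ht E hE
    exact hinv a α hα E (hS E hE) (h0 E hE) t ht
  refine ⟨hunion, hinter, ?_, ?_⟩
  · refine hCE X D hX ∅ isClosed_empty ?_
    intro a α _ h0
    exact absurd h0 (notMem_empty _)
  · intro x
    have hmin : ∀ E : Set X, Extremal E → x ∈ E → hull x ⊆ E := by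
      intro E hE hx y hy
      exact hy E ⟨hE, hx⟩
    refine ⟨hinter _ fun E hE => hE.1, ?_, hmin, ?_⟩
    · intro E hE
      exact hE.2
    · intro y hy z hz E hE
      exact hz E ⟨hE.1, hy E hE⟩

end Pool.Agent.H69.AL
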